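import Pool.Agent.H892.VS.Defs

/-!
# Border varieties of sums of powers on toric varieties: exact statements of the tasks
-/

set_option autoImplicit false

open MvPolynomial

namespace Pool.Agent.H892.VS

open Classical in
/-- homogeneous components -/
noncomputable def Cox.cmp {n s : ℕ} (T : Cox n s) (u : Fin s → ℤ) (g : MvPolynomial (Fin n) ℂ) :
    MvPolynomial (Fin n) ℂ :=
  ∑ m ∈ g.support.filter (fun m => T.wt m = u), monomial m (g.coeff m)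

/-! ## Algebraic geometry -/

/-- Generic freeness. -/
def S_GFREE : Prop := ∀ (A B M : Type) [CommRing A] [IsDomain A] [IsNoetherianRing A]
  [CommRing B] [Algebra A B] [Algebra.FiniteType A B] [AddCommGroup M] [Module A M] [Module B M]
  [IsScalarTower A B M] [Module.Finite B M], ∃ a : A, a ≠ 0 ∧
  Module.Free (Localization.Away a) (LocalizedModule (Submonoid.powers a) M)

/-- Generic freeness (consequence): multiplication by `b` stays injective on the general fibre. -/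
def S_FREE : Prop := ∀ (A B : Type) [CommRing A] [IsDomain A] [IsNoetherianRing A] [CommRing B]
  [IsDomain B] [Algebra A B] [Algebra.FiniteType A B] (b : B), b ≠ 0 → ∃ a : A, a ≠ 0 ∧
  ∀ m : Ideal A, m.IsMaximal → a ∉ m → ∀ x : B, b * x ∈ m.map (algebraMap A B) →
    x ∈ m.map (algebraMap A B)

/-- the rational map given by `g i / q ^ k` -/
noncomputable def rat {ι κ : Type} (q : MvPolynomial ι ℂ) (g : κ → MvPolynomial ι ℂ) (k : ℕ)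
    (z : ι → ℂ) : κ → ℂ :=
  fun i => eval z (g i) / eval z q ^ k

/-- the Zariski closure of the image of a rational map -/
def imc {ι κ : Type} (q : MvPolynomial ι ℂ) (g : κ → MvPolynomial ι ℂ) (k : ℕ) : Set (κ → ℂ) :=
  {y | ∀ Q : MvPolynomial κ ℂ, (∀ z, eval z q ≠ 0 → eval (rat q g k z) Q = 0) → eval y Q = 0}

/-- The image contains a nonempty open subset of its closure. -/
def S_GFA : Prop := ∀ (ι κ : Type) [Finite ι] [Finite κ] (q : MvPolynomial ι ℂ)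
  (g : κ → MvPolynomial ι ℂ) (k : ℕ), q ≠ 0 → ∃ b : MvPolynomial κ ℂ,
  (∃ z, eval z q ≠ 0 ∧ eval (rat q g k z) b ≠ 0) ∧
  ∀ y ∈ imc q g k, eval y b ≠ 0 → ∃ z, eval z q ≠ 0 ∧ rat q g k z = y

/-- The open subset `b ≠ 0` of the closure of the image meets the general fibre of `f` in a dense
subset. -/
def S_GFB : Prop := ∀ (ι κ μ : Type) [Finite ι] [Finite κ] [Finite μ] (q : MvPolynomial ι ℂ)
  (g : κ → MvPolynomial ι ℂ) (k : ℕ) (f : μ → MvPolynomial κ ℂ) (b : MvPolynomial κ ℂ), q ≠ 0 →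
  (∃ z, eval z q ≠ 0 ∧ eval (rat q g k z) b ≠ 0) → ∃ a : MvPolynomial μ ℂ,
  (∃ z, eval z q ≠ 0 ∧ eval (fun j => eval (rat q g k z) (f j)) a ≠ 0) ∧
  ∀ F : μ → ℂ, eval F a ≠ 0 → ∀ (y : κ → ℂ) (P : MvPolynomial κ ℂ), y ∈ imc q g k →
    (∀ j, eval y (f j) = F j) → eval y P ≠ 0 →
    ∃ y' ∈ imc q g k, (∀ j, eval y' (f j) = F j) ∧ eval y' P ≠ 0 ∧ eval y' b ≠ 0

def S_GF : Prop := ∀ (ι κ μ : Type) [Finite ι] [Finite κ] [Finite μ] (q : MvPolynomial ι ℂ)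
  (g : κ → MvPolynomial ι ℂ) (k : ℕ) (f : μ → MvPolynomial κ ℂ), q ≠ 0 →
  ∃ a : MvPolynomial μ ℂ,
  (∃ z, eval z q ≠ 0 ∧ eval (fun j => eval (rat q g k z) (f j)) a ≠ 0) ∧
  ∀ F : μ → ℂ, eval F a ≠ 0 → ∀ (y : κ → ℂ) (P : MvPolynomial κ ℂ), y ∈ imc q g k →
    (∀ j, eval y (f j) = F j) → eval y P ≠ 0 →
    ∃ z, eval z q ≠ 0 ∧ (∀ j, eval (rat q g k z) (f j) = F j) ∧ eval (rat q g k z) P ≠ 0

/-! ## Ideals of points -/

/-- Homogeneous ideals contain the homogeneous components of their elements. -/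
def S_HC : Prop := ∀ (n s : ℕ) (T : Cox n s) (J : Ideal (MvPolynomial (Fin n) ℂ)), T.Homog J →
  ∀ g ∈ J, ∀ u, T.cmp u g ∈ J

def S_PTI : Prop := ∀ (n s r : ℕ) (T : Cox n s) (x : Fin r → Fin n → ℂ),
  T.Homog (T.ptIdeal x) ∧ (∀ g, g ∈ T.ptIdeal x ↔ ∀ u i, eval (x i) (T.cmp u g) = 0) ∧
  ∀ u, ∀ g ∈ T.part u, (g ∈ T.ptIdeal x ↔ ∀ i, eval (x i) g = 0)

/-- The ideal of general points has the expected Hilbert function in all degrees. -/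
def S_GEN : Prop := ∀ (n s r : ℕ) (T : Cox n s), ∃ q : MvPolynomial (Fin r × Fin n) ℂ, q ≠ 0 ∧
  ∀ x : Fin r → Fin n → ℂ, eval (fun p => x p.1 p.2) q ≠ 0 →
    (∀ i j, x i j ≠ 0) ∧ T.ptIdeal x ∈ T.hilb r

def S_SATPT : Prop := ∀ (n s r : ℕ) (T : Cox n s) (x : Fin r → Fin n → ℂ), (∀ i, T.pt (x i)) →
  T.Sat (T.ptIdeal x)

/-- The coordinates of the ideals of points are rational functions (Cramer's rule). -/
def S_COFR : Prop := ∀ (n s r : ℕ) (T : Cox n s) (D : Finset (Fin s → ℤ)) (A : Finset (Mon n)),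
  ∃ (d : MvPolynomial (Fin r × Fin n) ℂ)
    (g : Mon n × Mon n → MvPolynomial (Fin r × Fin n) ℂ),
  ∀ x : Fin r → Fin n → ℂ, T.ptIdeal x ∈ T.hilb r →
    (T.IsBase D A (T.ptIdeal x) ↔ eval (fun p => x p.1 p.2) d ≠ 0) ∧
    (T.IsBase D A (T.ptIdeal x) → ∀ w, T.co D A (T.ptIdeal x) w * eval (fun p => x p.1 p.2) d =
      eval (fun p => x p.1 p.2) (g w))

/-- apolarity for the ideal of points -/
def S_APO : Prop := ∀ (n s r : ℕ) (T : Cox n s) (v : Fin s → ℤ) (x : Fin r → Fin n → ℂ)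
  (c : Fin r → ℂ), Apolar (T.ptIdeal x) (∑ i, c i • T.ev v (x i))

/-! ## The topology -/

/-- existence of bases -/
def S_BASE : Prop := ∀ (n s : ℕ) (T : Cox n s) (D : Finset (Fin s → ℤ))
  (J : Ideal (MvPolynomial (Fin n) ℂ)), ∃ A, T.IsBase D A J

/-- change of charts -/
def S_CHANGE : Prop := ∀ (n s : ℕ) (T : Cox n s) (D : Finset (Fin s → ℤ)) (A A' : Finset (Mon n))
  (P' : MvPolynomial (Mon n × Mon n) ℂ), ∃ Q : MvPolynomial (Mon n × Mon n) ℂ,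
  ∀ J : Ideal (MvPolynomial (Fin n) ℂ), T.IsBase D A J →
    (J ∈ T.bo D A' P' ↔ eval (T.co D A J) Q ≠ 0)

def S_NOETH : Prop := ∀ (n s : ℕ) (T : Cox n s) (D : Finset (Fin s → ℤ)),
  @TopologicalSpace.NoetherianSpace _ (T.zar D)

def S_COMP : Prop := ∀ (Y : Type) (τ : TopologicalSpace Y),
  @TopologicalSpace.NoetherianSpace Y τ → ∀ V E : Set Y, E ⊆ V → V ⊆ @closure Y τ E →
  ∀ C, IsComp τ V C → ∀ O : Set Y, @IsOpen Y τ O → (O ∩ C).Nonempty → (O ∩ C ∩ E).Nonempty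

/-! ## Secant varieties -/

/-- elements of the secant variety are supported on the monomials of degree `v` -/
def S_SUPP : Prop := ∀ (n s r : ℕ) (T : Cox n s) (v : Fin s → ℤ), ∀ F ∈ T.sig v r,
  ∀ m, m ∉ T.mon v → F m = 0

/-- the secant variety is irreducible -/
def S_IRR : Prop := ∀ (n s r : ℕ) (T : Cox n s) (v : Fin s → ℤ) (P Q : MvPolynomial (Mon n) ℂ),
  (∃ F ∈ T.sig v r, eval F P ≠ 0) → (∃ F ∈ T.sig v r, eval F Q ≠ 0) →
  ∃ F ∈ T.sig v r, eval F (P * Q) ≠ 0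

def S_RK : Prop := ∀ (n s r : ℕ) (T : Cox n s) (v : Fin s → ℤ), ∃ (r₀ : ℕ)
  (P : MvPolynomial (Mon n) ℂ), T.sig v r₀ = T.sig v r ∧ (∃ F ∈ T.sig v r, eval F P ≠ 0) ∧
  ∀ F ∈ T.sig v r, eval F P ≠ 0 → T.brk v F = r₀

/-! ## Main steps -/

/-- In each affine chart, the ideals of points are dense in the border variety of sums of powers of
the general `F`. -/
def S_CHART : Prop := ∀ (n s r : ℕ) (T : Cox n s) (v : Fin s → ℤ) (D : Finset (Fin s → ℤ)),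
  v ∈ D → ∀ A : Finset (Mon n), ∃ a : MvPolynomial (Mon n) ℂ,
  (∃ F ∈ T.sig v r, eval F a ≠ 0) ∧ ∀ F ∈ T.sig v r, eval F a ≠ 0 → ∀ J ∈ T.vsp D r F, ∀ P,
    J ∈ T.bo D A P → ∃ x : Fin r → Fin n → ℂ, (∀ i, T.pt (x i)) ∧
      T.ptIdeal x ∈ T.vsp D r F ∧ T.ptIdeal x ∈ T.bo D A P

def S_DENSE : Prop := ∀ (n s r : ℕ) (T : Cox n s) (v : Fin s → ℤ) (D : Finset (Fin s → ℤ)),
  v ∈ D → ∃ a : MvPolynomial (Mon n) ℂ,
  (∃ F ∈ T.sig v r, eval F a ≠ 0) ∧ ∀ F ∈ T.sig v r, eval F a ≠ 0 →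
    T.vsp D r F ⊆ @closure _ (T.zar D)
      {J | J ∈ T.vsp D r F ∧ ∃ x : Fin r → Fin n → ℂ, (∀ i, T.pt (x i)) ∧ J = T.ptIdeal x}

def S_VMAIN : Prop := ∀ (n s : ℕ) (T : Cox n s) (v : Fin s → ℤ) (r : ℕ)
  (D : Finset (Fin s → ℤ)), v ∈ D → ∃ P : MvPolynomial (Mon n) ℂ,
  (∃ F ∈ T.sig v r, eval F P ≠ 0) ∧ ∀ F ∈ T.sig v r, eval F P ≠ 0 →
    ∀ C, IsComp (T.zar D) (T.vsp D (T.brk v F) F) C →
      ¬ GeneralPt (T.zar D) C (fun J => ¬ T.Sat J)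

theorem gf_of (h1 : S_GFA) (h2 : S_GFB) : S_GF := by
  intro ι κ μ _ _ _ q g k f hq
  obtain ⟨b, hb, hb2⟩ := h1 ι κ q g k hq
  obtain ⟨a, ha, ha2⟩ := h2 ι κ μ q g k f b hq hb
  refine ⟨a, ha, fun F hF y P hy hyF hP => ?_⟩
  obtain ⟨y', hy', h3, h4, h5⟩ := ha2 F hF y P hy hyF hP
  obtain ⟨z, hz, rfl⟩ := hb2 y' hy' h5
  exact ⟨z, hz, h3, h4⟩

theorem vmain_of (h1 : S_RK) (h2 : S_DENSE) (h3 : S_IRR) (h4 : S_NOETH) (h5 : S_COMP)
    (h6 : S_SATPT) : S_VMAIN := by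
  intro n s T v r D hv
  obtain ⟨r₀, P, hr, hP, hbr⟩ := h1 n s r T v
  obtain ⟨a, ha, hd⟩ := h2 n s r₀ T v D hv
  rw [hr] at ha hd
  obtain ⟨F₀, hF₀, hn⟩ := h3 n s r T v P a hP ha
  refine ⟨P * a, ⟨F₀, hF₀, hn⟩, fun F hF hne C hC => ?_⟩
  rw [map_mul] at hne
  have hb : T.brk v F = r₀ := hbr F hF (left_ne_zero_of_mul hne)
  rw [hb] at hC
  rintro ⟨O, hO, hne2, hQ⟩
  obtain ⟨J, ⟨hJ1, hJ2⟩⟩ := h5 _ (T.zar D) (h4 n s T D) _ _ (fun J hJ => hJ.1)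
    (hd F hF (right_ne_zero_of_mul hne)) C hC O hO hne2
  obtain ⟨_, x, hx, rfl⟩ := hJ2
  exact hQ _ hJ1 (h6 n s r₀ T x hx)

end Pool.Agent.H892.VS
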