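import Mathlib

/-!
# Border varieties of sums of powers on toric varieties (MP_02af42_ag): definitions

The Cox ring of a toric variety `X` is the polynomial ring in `n` variables over `ℂ`, graded by the
group `ℤ^s = Pic X`. A class `v`, an element of the degree `v` part of the dual ring is a linear
functional on the polynomials of degree `v`, given by its values `F m` at the monomials `m` of
degree `v`.
-/

set_option autoImplicit false

open MvPolynomial

namespace Pool.Agent.H892.VS

/-- exponents of monomials in `n` variables -/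
abbrev Mon (n : ℕ) : Type := Fin n →₀ ℕ

/-- The Cox ring of a (smooth projective) toric variety: the degrees of the variables, and the
squarefree monomials which generate the irrelevant ideal `B`. The graded parts of the Cox ring are
finite dimensional. -/
structure Cox (n s : ℕ) where
  /-- the degrees of the variables -/
  deg : Fin n → Fin s → ℤ
  /-- the squarefree monomials `∏_{j ∈ E} x_j`, `E ∈ irr`, generate the irrelevant ideal -/
  irr : Finset (Finset (Fin n))
  irr_ne : irr.Nonempty
  fin : ∀ u, {m : Mon n | ∑ j, (m j : ℤ) • deg j = u}.Finite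

variable {n s : ℕ} (T : Cox n s)

/-- the degree of a monomial -/
def Cox.wt (m : Mon n) : Fin s → ℤ := ∑ j, (m j : ℤ) • T.deg j

/-- the monomials of degree `u` -/
noncomputable def Cox.mon (u : Fin s → ℤ) : Finset (Mon n) := (T.fin u).toFinset

/-- the polynomials of degree `u` -/
noncomputable def Cox.part (u : Fin s → ℤ) : Submodule ℂ (MvPolynomial (Fin n) ℂ) where
  carrier := {g | ∀ m, g.coeff m ≠ 0 → T.wt m = u}
  zero_mem' := by intro m h; simp at h
  add_mem' := by
    intro g g' hg hg' m h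
    by_cases h1 : g.coeff m = 0
    · exact hg' m (by rw [coeff_add, h1, zero_add] at h; exact h)
    · exact hg m h1
  smul_mem' := by
    intro c g hg m h
    exact hg m (by rw [coeff_smul] at h; exact right_ne_zero_of_smul h)

/-- the part of degree `u` of an ideal -/
noncomputable def Cox.ipart (J : Ideal (MvPolynomial (Fin n) ℂ)) (u : Fin s → ℤ) :
    Submodule ℂ (MvPolynomial (Fin n) ℂ) :=
  J.restrictScalars ℂ ⊓ T.part u

/-- homogeneous ideals: generated by homogeneous polynomials -/
def Cox.Homog (J : Ideal (MvPolynomial (Fin n) ℂ)) : Prop :=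
  J = Ideal.span {g | g ∈ J ∧ ∃ u, g ∈ T.part u}

/-- The (closed points of the) multigraded Hilbert scheme: homogeneous ideals `J` with the Hilbert
function `dim (S/J)_u = min (r, dim S_u)` of `r` general points of `X`. -/
def Cox.hilb (r : ℕ) : Set (Ideal (MvPolynomial (Fin n) ℂ)) :=
  {J | T.Homog J ∧ ∀ u, Module.finrank ℂ (T.ipart J u) + min r (T.mon u).card = (T.mon u).card}

/-- `x` is outside of the zero set of the irrelevant ideal, so it represents a point of `X` -/
def Cox.pt (x : Fin n → ℂ) : Prop := ∃ E ∈ T.irr, ∀ j ∈ E, x j ≠ 0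

/-- the homogeneous ideal of the points `x 1, …, x r` -/
noncomputable def Cox.ptIdeal {r : ℕ} (x : Fin r → Fin n → ℂ) : Ideal (MvPolynomial (Fin n) ℂ) :=
  Ideal.span {g | (∃ u, g ∈ T.part u) ∧ ∀ i, eval (x i) g = 0}

/-- saturated ideals: `(J : B^∞) = J` -/
def Cox.Sat (J : Ideal (MvPolynomial (Fin n) ℂ)) : Prop :=
  ∀ g, (∀ E ∈ T.irr, ∃ k : ℕ, (∏ j ∈ E, X j) ^ k * g ∈ J) → g ∈ J

/-- the functional `g ↦ g(x)` on the polynomials of degree `v`: the point `x` of
`X ⊆ ℙ(T_v)` -/
noncomputable def Cox.ev (v : Fin s → ℤ) (x : Fin n → ℂ) : Mon n → ℂ :=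
  fun m => if m ∈ T.mon v then ∏ j, x j ^ m j else 0

/-- sums of `r` multiples of points of `X` -/
def Cox.sec (v : Fin s → ℤ) (r : ℕ) : Set (Mon n → ℂ) :=
  {F | ∃ (x : Fin r → Fin n → ℂ) (c : Fin r → ℂ), (∀ i, T.pt (x i)) ∧
    F = ∑ i, c i • T.ev v (x i)}

/-- the affine cone over the secant variety `σ_r(X) ⊆ ℙ(T_v)` (Zariski closure) -/
def Cox.sig (v : Fin s → ℤ) (r : ℕ) : Set (Mon n → ℂ) :=
  {F | ∀ P : MvPolynomial (Mon n) ℂ, (∀ G ∈ T.sec v r, eval G P = 0) → eval F P = 0}

/-- the border rank -/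
noncomputable def Cox.brk (v : Fin s → ℤ) (F : Mon n → ℂ) : ℕ := sInf {r | F ∈ T.sig v r}

/-- the value of the functional `F` at a polynomial -/
noncomputable def pair (F : Mon n → ℂ) (g : MvPolynomial (Fin n) ℂ) : ℂ :=
  ∑ m ∈ g.support, g.coeff m * F m

/-- `J ⊆ Ann(F)`: the polynomial `g` annihilates `F` if `F (h g) = 0` for all `h` -/
def Apolar (J : Ideal (MvPolynomial (Fin n) ℂ)) (F : Mon n → ℂ) : Prop :=
  ∀ g ∈ J, ∀ h, pair F (h * g) = 0

/-- modulo `J`, the monomial `m` is equal to the combination with coefficients `c` of the monomials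
in `A` of the same degree -/
def Cox.Red (A : Finset (Mon n)) (J : Ideal (MvPolynomial (Fin n) ℂ)) (m : Mon n)
    (c : Mon n → ℂ) : Prop :=
  (∀ a, c a ≠ 0 → a ∈ A ∧ T.wt a = T.wt m) ∧ monomial m 1 - ∑ a ∈ A, monomial a (c a) ∈ J

/-- for `u ∈ D`, the monomials in `A` of degree `u` form a basis of `(S/J)_u` -/
def Cox.IsBase (D : Finset (Fin s → ℤ)) (A : Finset (Mon n))
    (J : Ideal (MvPolynomial (Fin n) ℂ)) : Prop :=
  ∀ m, T.wt m ∈ D → ∃! c, T.Red A J m c

open Classical in
/-- the coefficients of the monomials of degrees in `D` with respect to the basis `A`: the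
coordinates of `(J_u)_{u ∈ D}` in an affine chart of a product of Grassmannians -/
noncomputable def Cox.co (D : Finset (Fin s → ℤ)) (A : Finset (Mon n))
    (J : Ideal (MvPolynomial (Fin n) ℂ)) (q : Mon n × Mon n) : ℂ :=
  if h : T.wt q.1 ∈ D ∧ ∃ c, T.Red A J q.1 c then Classical.choose h.2 q.2 else 0

/-- basic open sets: `P ≠ 0` in the affine chart given by `A` -/
def Cox.bo (D : Finset (Fin s → ℤ)) (A : Finset (Mon n)) (P : MvPolynomial (Mon n × Mon n) ℂ) :
    Set (Ideal (MvPolynomial (Fin n) ℂ)) :=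
  {J | T.IsBase D A J ∧ eval (T.co D A J) P ≠ 0}

/-- The Zariski topology given by the parts of the ideals of degrees in the finite set `D`. If
the ideals in `T.hilb r` are generated in degrees in `D`, it is the Zariski topology of the
multigraded Hilbert scheme (Haiman, Sturmfels). -/
@[reducible]
def Cox.zar (D : Finset (Fin s → ℤ)) : TopologicalSpace (Ideal (MvPolynomial (Fin n) ℂ)) :=
  TopologicalSpace.generateFrom {O | ∃ A P, O = T.bo D A P}

/-- `Slip_{r,X}`: limits of saturated ideals of `r` points of `X` with the Hilbert function of `r`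
general points -/
def Cox.slip (D : Finset (Fin s → ℤ)) (r : ℕ) : Set (Ideal (MvPolynomial (Fin n) ℂ)) :=
  {J | J ∈ T.hilb r ∧ J ∈ @closure _ (T.zar D)
    {J' | J' ∈ T.hilb r ∧ ∃ x : Fin r → Fin n → ℂ, (∀ i, T.pt (x i)) ∧ J' = T.ptIdeal x}}

/-- the border variety of sums of powers -/
def Cox.vsp (D : Finset (Fin s → ℤ)) (r : ℕ) (F : Mon n → ℂ) :
    Set (Ideal (MvPolynomial (Fin n) ℂ)) :=
  {J | J ∈ T.slip D r ∧ Apolar J F}

/-- `C` is an irreducible component of the set `V` -/
def IsComp {Y : Type} (τ : TopologicalSpace Y) (V C : Set Y) : Prop :=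
  Maximal (fun Z => Z ⊆ V ∧ @IsIrreducible Y τ Z) C

/-- the general point of `C` has the property `Q` -/
def GeneralPt {Y : Type} (τ : TopologicalSpace Y) (C : Set Y) (Q : Y → Prop) : Prop :=
  ∃ O : Set Y, @IsOpen Y τ O ∧ (O ∩ C).Nonempty ∧ ∀ J ∈ O ∩ C, Q J

end Pool.Agent.H892.VS
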