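import Pool.Agent.H892.VS.Stm
import Pool.Agent.H892.VS.W.GFREE
import Pool.Agent.H892.VS.W.FREE
import Pool.Agent.H892.VS.W.GFA
import Pool.Agent.H892.VS.W.GFB
import Pool.Agent.H892.VS.W.HC
import Pool.Agent.H892.VS.W.PTI
import Pool.Agent.H892.VS.W.GEN
import Pool.Agent.H892.VS.W.SATPT
import Pool.Agent.H892.VS.W.COFR
import Pool.Agent.H892.VS.W.APO
import Pool.Agent.H892.VS.W.BASE
import Pool.Agent.H892.VS.W.CHANGE
import Pool.Agent.H892.VS.W.NOETH
import Pool.Agent.H892.VS.W.COMP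
import Pool.Agent.H892.VS.W.SUPP
import Pool.Agent.H892.VS.W.IRR
import Pool.Agent.H892.VS.W.RK
import Pool.Agent.H892.VS.W.CHART
import Pool.Agent.H892.VS.W.DENSE

/-!
# Border varieties of sums of powers: assembly

The lemmas were proved by teammates (helpers 16, 80, 94, 97, 127, 130, 234, 644, 675, 682, 703, 729,
772, 801, 813, 862, 932, 947, 981).
-/

set_option autoImplicit false

namespace Pool.Agent.H892.VS

theorem p_GFREE : S_GFREE := Pool.Agent.H97.VS_GFREE.t_GFREE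

theorem p_FREE : S_FREE := Pool.Agent.H127.VS_FREE.t_FREE p_GFREE

theorem p_GFA : S_GFA := Pool.Agent.H94.VS_GFA.t_GFA

theorem p_GFB : S_GFB := Pool.Agent.H981.VS_GFB.t_GFB p_FREE

theorem p_HC : S_HC := Pool.Agent.H862.VS_HC.t_HC

theorem p_PTI : S_PTI := Pool.Agent.H682.VS_PTI.t_PTI p_HC

theorem p_GEN : S_GEN := Pool.Agent.H130.VS_GEN.t_GEN p_PTI

theorem p_SATPT : S_SATPT := Pool.Agent.H644.VS_SATPT.t_SATPT p_PTI

theorem p_COFR : S_COFR := Pool.Agent.H703.VS_COFR.t_COFR p_PTI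

theorem p_APO : S_APO := Pool.Agent.H16.VS_APO.t_APO p_PTI

theorem p_BASE : S_BASE := Pool.Agent.H801.VS_BASE.t_BASE

theorem p_CHANGE : S_CHANGE := Pool.Agent.H813.VS_CHANGE.t_CHANGE

theorem p_NOETH : S_NOETH := Pool.Agent.H80.VS_NOETH.t_NOETH p_CHANGE p_BASE

theorem p_COMP : S_COMP := Pool.Agent.H932.VS_COMP.t_COMP

theorem p_SUPP : S_SUPP := Pool.Agent.H234.VS_SUPP.t_SUPP

theorem p_IRR : S_IRR := Pool.Agent.H947.VS_IRR.t_IRR

theorem p_RK : S_RK := Pool.Agent.H729.VS_RK.t_RK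

theorem p_GF : S_GF := gf_of p_GFA p_GFB

theorem p_CHART : S_CHART := Pool.Agent.H675.VS_CHART.t_CHART p_GF p_GEN p_COFR p_PTI p_APO p_SUPP

theorem p_DENSE : S_DENSE := Pool.Agent.H772.VS_DENSE.t_DENSE p_CHART p_CHANGE p_BASE p_IRR

theorem vmain : S_VMAIN := vmain_of p_RK p_DENSE p_IRR p_NOETH p_COMP p_SATPT

end Pool.Agent.H892.VS
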